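import Mathlib

/-!
# Project SR: NUM, the explicit two variable inequality

Certificate: for every `m ≥ 0` and `l ∈ [0, 4/7]` the quantities of the statement satisfy
`g ≥ p² - r² + 4 m (r - p²) - 2 m² D` (`D = 1 + r² - 2 p² ≥ 0`) and
`1 - b ≤ (1 - r²)(1 + 8 l²) - (16 l - 28 l²) g`; on each of 29 boxes constants `l, m, s` are given
such that all Bernstein coefficients of `FF l m r p - s D` are nonnegative.
-/

set_option autoImplicit false

namespace Pool.Agent.Helper68.SR

/-- the certificate function -/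
noncomputable def Qd (x : ℝ) : ℝ :=
  (1 - x) * (10787 / 10000 + 9861 / 10000 * x - 2497 / 10000 * x ^ 2)

/-- upper bound for `1 - b` -/
noncomputable def BB (l m r p : ℝ) : ℝ :=
  (1 - r ^ 2) * (1 + 8 * l ^ 2) -
    (16 * l - 28 * l ^ 2) * (p ^ 2 - r ^ 2 + 4 * m * (r - p ^ 2) - 2 * m ^ 2 * (1 + r ^ 2 - 2 * p ^ 2))

/-- `(1 + p)²` times the difference of the two sides, with `1 - b` replaced by `BB` -/
noncomputable def FF (l m r p : ℝ) : ℝ :=
  (1 + p) ^ 2 * (1998 / 1000 * (1 - r ^ 2) + 2 * Qd p - Qd (r ^ 2)) -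
    2 * ((1 - p) * (1 + 3 * p)) - ((1 + p) ^ 2 + 4 * p ^ 2) * BB l m r p

end Pool.Agent.Helper68.SR
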