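import Mathlib
import Pool.Agent.Helper68.SR.NumDefs

/-! # Project SR: NUM, Bernstein certificates for the boxes 0 to 9 -/

set_option autoImplicit false

namespace Pool.Agent.Helper68.SR

lemma bx0_NUM (r p : ℝ) (h0 : 0 ≤ r) (h1 : r ≤ (1 / 4)) (h2 : 0 ≤ p) (h3 : p ≤ (1 / 4)) :
    0 ≤ FF 0 (1 / 20) r p - 0 * (1 + r ^ 2 - 2 * p ^ 2) := by
  have key : ∀ a b c d : ℝ, 0 ≤ a → 0 ≤ b → 0 ≤ c → 0 ≤ d → 0 ≤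
      a ^ 0 * b ^ 6 * (201064448 * c ^ 0 * d ^ 5 + 984481792 * c ^ 1 * d ^ 4 + 2129575936 * c ^ 2 * d ^ 3 + 2302877696 * c ^ 3 * d ^ 2 + 1134551040 * c ^ 4 * d ^ 1 + 179110400 * c ^ 5 * d ^ 0) +
      a ^ 1 * b ^ 5 * (1206386688 * c ^ 0 * d ^ 5 + 5906890752 * c ^ 1 * d ^ 4 + 12777455616 * c ^ 2 * d ^ 3 + 13817266176 * c ^ 3 * d ^ 2 + 6807306240 * c ^ 4 * d ^ 1 + 1074662400 * c ^ 5 * d ^ 0) +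
      a ^ 2 * b ^ 4 * (2867625984 * c ^ 0 * d ^ 5 + 13951352832 * c ^ 1 * d ^ 4 + 30195238912 * c ^ 2 * d ^ 3 + 32709801984 * c ^ 3 * d ^ 2 + 16074946560 * c ^ 4 * d ^ 1 + 2495833600 * c ^ 5 * d ^ 0) +
      a ^ 3 * b ^ 3 * (3427926016 * c ^ 0 * d ^ 5 + 16426139648 * c ^ 1 * d ^ 4 + 35597918208 * c ^ 2 * d ^ 3 + 38724100096 * c ^ 3 * d ^ 2 + 18917744640 * c ^ 4 * d ^ 1 + 2818918400 * c ^ 5 * d ^ 0) +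
      a ^ 4 * b ^ 2 * (2138576896 * c ^ 0 * d ^ 5 + 9941582848 * c ^ 1 * d ^ 4 + 21605884288 * c ^ 2 * d ^ 3 + 23709867136 * c ^ 3 * d ^ 2 + 11449306240 * c ^ 4 * d ^ 1 + 1561494400 * c ^ 5 * d ^ 0) +
      a ^ 5 * b ^ 1 * (638332928 * c ^ 0 * d ^ 5 + 2782595072 * c ^ 1 * d ^ 4 + 6089147136 * c ^ 2 * d ^ 3 + 6817577216 * c ^ 3 * d ^ 2 + 3215939840 * c ^ 4 * d ^ 1 + 350918400 * c ^ 5 * d ^ 0) +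
      a ^ 6 * b ^ 0 * (65218496 * c ^ 0 * d ^ 5 + 237329056 * c ^ 1 * d ^ 4 + 531894140 * c ^ 2 * d ^ 3 + 634289204 * c ^ 3 * d ^ 2 + 281038260 * c ^ 4 * d ^ 1 + 7811100 * c ^ 5 * d ^ 0) := by
    intro a b c d ha hb hc hd
    positivity
  have k2 := key (r - 0) ((1 / 4) - r) (p - 0) ((1 / 4) - p) (by linarith) (by linarith) (by linarith) (by linarith)
  have e : 625 * (FF 0 (1 / 20) r p - 0 * (1 + r ^ 2 - 2 * p ^ 2)) =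
      (r - 0) ^ 0 * ((1 / 4) - r) ^ 6 * (201064448 * (p - 0) ^ 0 * ((1 / 4) - p) ^ 5 + 984481792 * (p - 0) ^ 1 * ((1 / 4) - p) ^ 4 + 2129575936 * (p - 0) ^ 2 * ((1 / 4) - p) ^ 3 + 2302877696 * (p - 0) ^ 3 * ((1 / 4) - p) ^ 2 + 1134551040 * (p - 0) ^ 4 * ((1 / 4) - p) ^ 1 + 179110400 * (p - 0) ^ 5 * ((1 / 4) - p) ^ 0) +
      (r - 0) ^ 1 * ((1 / 4) - r) ^ 5 * (1206386688 * (p - 0) ^ 0 * ((1 / 4) - p) ^ 5 + 5906890752 * (p - 0) ^ 1 * ((1 / 4) - p) ^ 4 + 12777455616 * (p - 0) ^ 2 * ((1 / 4) - p) ^ 3 + 13817266176 * (p - 0) ^ 3 * ((1 / 4) - p) ^ 2 + 6807306240 * (p - 0) ^ 4 * ((1 / 4) - p) ^ 1 + 1074662400 * (p - 0) ^ 5 * ((1 / 4) - p) ^ 0) +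
      (r - 0) ^ 2 * ((1 / 4) - r) ^ 4 * (2867625984 * (p - 0) ^ 0 * ((1 / 4) - p) ^ 5 + 13951352832 * (p - 0) ^ 1 * ((1 / 4) - p) ^ 4 + 30195238912 * (p - 0) ^ 2 * ((1 / 4) - p) ^ 3 + 32709801984 * (p - 0) ^ 3 * ((1 / 4) - p) ^ 2 + 16074946560 * (p - 0) ^ 4 * ((1 / 4) - p) ^ 1 + 2495833600 * (p - 0) ^ 5 * ((1 / 4) - p) ^ 0) +
      (r - 0) ^ 3 * ((1 / 4) - r) ^ 3 * (3427926016 * (p - 0) ^ 0 * ((1 / 4) - p) ^ 5 + 16426139648 * (p - 0) ^ 1 * ((1 / 4) - p) ^ 4 + 35597918208 * (p - 0) ^ 2 * ((1 / 4) - p) ^ 3 + 38724100096 * (p - 0) ^ 3 * ((1 / 4) - p) ^ 2 + 18917744640 * (p - 0) ^ 4 * ((1 / 4) - p) ^ 1 + 2818918400 * (p - 0) ^ 5 * ((1 / 4) - p) ^ 0) +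
      (r - 0) ^ 4 * ((1 / 4) - r) ^ 2 * (2138576896 * (p - 0) ^ 0 * ((1 / 4) - p) ^ 5 + 9941582848 * (p - 0) ^ 1 * ((1 / 4) - p) ^ 4 + 21605884288 * (p - 0) ^ 2 * ((1 / 4) - p) ^ 3 + 23709867136 * (p - 0) ^ 3 * ((1 / 4) - p) ^ 2 + 11449306240 * (p - 0) ^ 4 * ((1 / 4) - p) ^ 1 + 1561494400 * (p - 0) ^ 5 * ((1 / 4) - p) ^ 0) +
      (r - 0) ^ 5 * ((1 / 4) - r) ^ 1 * (638332928 * (p - 0) ^ 0 * ((1 / 4) - p) ^ 5 + 2782595072 * (p - 0) ^ 1 * ((1 / 4) - p) ^ 4 + 6089147136 * (p - 0) ^ 2 * ((1 / 4) - p) ^ 3 + 6817577216 * (p - 0) ^ 3 * ((1 / 4) - p) ^ 2 + 3215939840 * (p - 0) ^ 4 * ((1 / 4) - p) ^ 1 + 350918400 * (p - 0) ^ 5 * ((1 / 4) - p) ^ 0) +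
      (r - 0) ^ 6 * ((1 / 4) - r) ^ 0 * (65218496 * (p - 0) ^ 0 * ((1 / 4) - p) ^ 5 + 237329056 * (p - 0) ^ 1 * ((1 / 4) - p) ^ 4 + 531894140 * (p - 0) ^ 2 * ((1 / 4) - p) ^ 3 + 634289204 * (p - 0) ^ 3 * ((1 / 4) - p) ^ 2 + 281038260 * (p - 0) ^ 4 * ((1 / 4) - p) ^ 1 + 7811100 * (p - 0) ^ 5 * ((1 / 4) - p) ^ 0) := by
    unfold FF BB Qd
    ring
  rw [← e] at k2
  exact (mul_nonneg_iff_of_pos_left (by norm_num)).1 k2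

lemma bx1_NUM (r p : ℝ) (h0 : 0 ≤ r) (h1 : r ≤ (1 / 4)) (h2 : (1 / 4) ≤ p) (h3 : p ≤ (1 / 2)) :
    0 ≤ FF (1 / 15) (1 / 10) r p - 0 * (1 + r ^ 2 - 2 * p ^ 2) := by
  have key : ∀ a b c d : ℝ, 0 ≤ a → 0 ≤ b → 0 ≤ c → 0 ≤ d → 0 ≤
      a ^ 0 * b ^ 6 * (897389056 * c ^ 0 * d ^ 5 + 5115728896 * c ^ 1 * d ^ 4 + 10980159488 * c ^ 2 * d ^ 3 + 10641776640 * c ^ 3 * d ^ 2 + 4518715392 * c ^ 4 * d ^ 1 + 650264576 * c ^ 5 * d ^ 0) +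
      a ^ 1 * b ^ 5 * (9413487616 * c ^ 0 * d ^ 5 + 53340993536 * c ^ 1 * d ^ 4 + 116870586368 * c ^ 2 * d ^ 3 + 121231360000 * c ^ 3 * d ^ 2 + 59345518592 * c ^ 4 * d ^ 1 + 11126276096 * c ^ 5 * d ^ 0) +
      a ^ 2 * b ^ 4 * (29415642624 * c ^ 0 * d ^ 5 + 167381787648 * c ^ 1 * d ^ 4 + 371069872128 * c ^ 2 * d ^ 3 + 394402031616 * c ^ 3 * d ^ 2 + 201038438400 * c ^ 4 * d ^ 1 + 39912726528 * c ^ 5 * d ^ 0) +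
      a ^ 3 * b ^ 3 * (41475475456 * c ^ 0 * d ^ 5 + 238431793152 * c ^ 1 * d ^ 4 + 535176814592 * c ^ 2 * d ^ 3 + 578130059264 * c ^ 3 * d ^ 2 + 301072875520 * c ^ 4 * d ^ 1 + 61393436672 * c ^ 5 * d ^ 0) +
      a ^ 4 * b ^ 2 * (28784566144 * c ^ 0 * d ^ 5 + 168639613568 * c ^ 1 * d ^ 4 + 385186080896 * c ^ 2 * d ^ 3 + 422892937600 * c ^ 3 * d ^ 2 + 223858310144 * c ^ 4 * d ^ 1 + 46468998656 * c ^ 5 * d ^ 0) +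
      a ^ 5 * b ^ 1 * (9122172672 * c ^ 0 * d ^ 5 + 55500403968 * c ^ 1 * d ^ 4 + 130649231616 * c ^ 2 * d ^ 3 + 146697683712 * c ^ 3 * d ^ 2 + 79036446720 * c ^ 4 * d ^ 1 + 16678800384 * c ^ 5 * d ^ 0) +
      a ^ 6 * b ^ 0 * (911290620 * c ^ 0 * d ^ 5 + 6123925124 * c ^ 1 * d ^ 4 + 15434361492 * c ^ 2 * d ^ 3 + 18094220924 * c ^ 3 * d ^ 2 + 10024275040 * c ^ 4 * d ^ 1 + 2163287280 * c ^ 5 * d ^ 0) := by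
    intro a b c d ha hb hc hd
    positivity
  have k2 := key (r - 0) ((1 / 4) - r) (p - (1 / 4)) ((1 / 2) - p) (by linarith) (by linarith) (by linarith) (by linarith)
  have e : 5625 * (FF (1 / 15) (1 / 10) r p - 0 * (1 + r ^ 2 - 2 * p ^ 2)) =
      (r - 0) ^ 0 * ((1 / 4) - r) ^ 6 * (897389056 * (p - (1 / 4)) ^ 0 * ((1 / 2) - p) ^ 5 + 5115728896 * (p - (1 / 4)) ^ 1 * ((1 / 2) - p) ^ 4 + 10980159488 * (p - (1 / 4)) ^ 2 * ((1 / 2) - p) ^ 3 + 10641776640 * (p - (1 / 4)) ^ 3 * ((1 / 2) - p) ^ 2 + 4518715392 * (p - (1 / 4)) ^ 4 * ((1 / 2) - p) ^ 1 + 650264576 * (p - (1 / 4)) ^ 5 * ((1 / 2) - p) ^ 0) +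
      (r - 0) ^ 1 * ((1 / 4) - r) ^ 5 * (9413487616 * (p - (1 / 4)) ^ 0 * ((1 / 2) - p) ^ 5 + 53340993536 * (p - (1 / 4)) ^ 1 * ((1 / 2) - p) ^ 4 + 116870586368 * (p - (1 / 4)) ^ 2 * ((1 / 2) - p) ^ 3 + 121231360000 * (p - (1 / 4)) ^ 3 * ((1 / 2) - p) ^ 2 + 59345518592 * (p - (1 / 4)) ^ 4 * ((1 / 2) - p) ^ 1 + 11126276096 * (p - (1 / 4)) ^ 5 * ((1 / 2) - p) ^ 0) +
      (r - 0) ^ 2 * ((1 / 4) - r) ^ 4 * (29415642624 * (p - (1 / 4)) ^ 0 * ((1 / 2) - p) ^ 5 + 167381787648 * (p - (1 / 4)) ^ 1 * ((1 / 2) - p) ^ 4 + 371069872128 * (p - (1 / 4)) ^ 2 * ((1 / 2) - p) ^ 3 + 394402031616 * (p - (1 / 4)) ^ 3 * ((1 / 2) - p) ^ 2 + 201038438400 * (p - (1 / 4)) ^ 4 * ((1 / 2) - p) ^ 1 + 39912726528 * (p - (1 / 4)) ^ 5 * ((1 / 2) - p) ^ 0) +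
      (r - 0) ^ 3 * ((1 / 4) - r) ^ 3 * (41475475456 * (p - (1 / 4)) ^ 0 * ((1 / 2) - p) ^ 5 + 238431793152 * (p - (1 / 4)) ^ 1 * ((1 / 2) - p) ^ 4 + 535176814592 * (p - (1 / 4)) ^ 2 * ((1 / 2) - p) ^ 3 + 578130059264 * (p - (1 / 4)) ^ 3 * ((1 / 2) - p) ^ 2 + 301072875520 * (p - (1 / 4)) ^ 4 * ((1 / 2) - p) ^ 1 + 61393436672 * (p - (1 / 4)) ^ 5 * ((1 / 2) - p) ^ 0) +
      (r - 0) ^ 4 * ((1 / 4) - r) ^ 2 * (28784566144 * (p - (1 / 4)) ^ 0 * ((1 / 2) - p) ^ 5 + 168639613568 * (p - (1 / 4)) ^ 1 * ((1 / 2) - p) ^ 4 + 385186080896 * (p - (1 / 4)) ^ 2 * ((1 / 2) - p) ^ 3 + 422892937600 * (p - (1 / 4)) ^ 3 * ((1 / 2) - p) ^ 2 + 223858310144 * (p - (1 / 4)) ^ 4 * ((1 / 2) - p) ^ 1 + 46468998656 * (p - (1 / 4)) ^ 5 * ((1 / 2) - p) ^ 0) +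
      (r - 0) ^ 5 * ((1 / 4) - r) ^ 1 * (9122172672 * (p - (1 / 4)) ^ 0 * ((1 / 2) - p) ^ 5 + 55500403968 * (p - (1 / 4)) ^ 1 * ((1 / 2) - p) ^ 4 + 130649231616 * (p - (1 / 4)) ^ 2 * ((1 / 2) - p) ^ 3 + 146697683712 * (p - (1 / 4)) ^ 3 * ((1 / 2) - p) ^ 2 + 79036446720 * (p - (1 / 4)) ^ 4 * ((1 / 2) - p) ^ 1 + 16678800384 * (p - (1 / 4)) ^ 5 * ((1 / 2) - p) ^ 0) +
      (r - 0) ^ 6 * ((1 / 4) - r) ^ 0 * (911290620 * (p - (1 / 4)) ^ 0 * ((1 / 2) - p) ^ 5 + 6123925124 * (p - (1 / 4)) ^ 1 * ((1 / 2) - p) ^ 4 + 15434361492 * (p - (1 / 4)) ^ 2 * ((1 / 2) - p) ^ 3 + 18094220924 * (p - (1 / 4)) ^ 3 * ((1 / 2) - p) ^ 2 + 10024275040 * (p - (1 / 4)) ^ 4 * ((1 / 2) - p) ^ 1 + 2163287280 * (p - (1 / 4)) ^ 5 * ((1 / 2) - p) ^ 0) := by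
    unfold FF BB Qd
    ring
  rw [← e] at k2
  exact (mul_nonneg_iff_of_pos_left (by norm_num)).1 k2

lemma bx2_NUM (r p : ℝ) (h0 : (1 / 4) ≤ r) (h1 : r ≤ (1 / 2)) (h2 : 0 ≤ p) (h3 : p ≤ (1 / 4)) :
    0 ≤ FF (1 / 15) (3 / 10) r p - 0 * (1 + r ^ 2 - 2 * p ^ 2) := by
  have key : ∀ a b c d : ℝ, 0 ≤ a → 0 ≤ b → 0 ≤ c → 0 ≤ d → 0 ≤
      a ^ 0 * b ^ 6 * (828663232 * c ^ 0 * d ^ 5 + 3465293728 * c ^ 1 * d ^ 4 + 7985236828 * c ^ 2 * d ^ 3 + 9855294932 * c ^ 3 * d ^ 2 + 5406473044 * c ^ 4 * d ^ 1 + 911290620 * c ^ 5 * d ^ 0) +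
      a ^ 1 * b ^ 5 * (6243685632 * c ^ 0 * d ^ 5 + 27786146688 * c ^ 1 * d ^ 4 + 64862383440 * c ^ 2 * d ^ 3 + 80735413488 * c ^ 3 * d ^ 2 + 46412244720 * c ^ 4 * d ^ 1 + 9065790672 * c ^ 5 * d ^ 0) +
      a ^ 2 * b ^ 4 * (16528167168 * c ^ 0 * d ^ 5 + 74519608704 * c ^ 1 * d ^ 4 + 177240230160 * c ^ 2 * d ^ 3 + 225955427376 * c ^ 3 * d ^ 2 + 134633786928 * c ^ 4 * d ^ 1 + 28099740816 * c ^ 5 * d ^ 0) +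
      a ^ 3 * b ^ 3 * (20675876864 * c ^ 0 * d ^ 5 + 91870241792 * c ^ 1 * d ^ 4 + 225190096256 * c ^ 2 * d ^ 3 + 299201896576 * c ^ 3 * d ^ 2 + 185609785472 * c ^ 4 * d ^ 1 + 40633743744 * c ^ 5 * d ^ 0) +
      a ^ 4 * b ^ 2 * (12957852672 * c ^ 0 * d ^ 5 + 54882878976 * c ^ 1 * d ^ 4 + 142087766592 * c ^ 2 * d ^ 3 + 202615270080 * c ^ 3 * d ^ 2 + 132715516608 * c ^ 4 * d ^ 1 + 30435579456 * c ^ 5 * d ^ 0) +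
      a ^ 5 * b ^ 1 * (3745665024 * c ^ 0 * d ^ 5 + 14047033344 * c ^ 1 * d ^ 4 + 41061573888 * c ^ 2 * d ^ 3 + 66787458816 * c ^ 3 * d ^ 2 + 47452413696 * c ^ 4 * d ^ 1 + 11494197504 * c ^ 5 * d ^ 0) +
      a ^ 6 * b ^ 0 * (349106176 * c ^ 0 * d ^ 5 + 827729920 * c ^ 1 * d ^ 4 + 3783470848 * c ^ 2 * d ^ 3 + 8279809280 * c ^ 3 * d ^ 2 + 6708329728 * c ^ 4 * d ^ 1 + 1744873728 * c ^ 5 * d ^ 0) := by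
    intro a b c d ha hb hc hd
    positivity
  have k2 := key (r - (1 / 4)) ((1 / 2) - r) (p - 0) ((1 / 4) - p) (by linarith) (by linarith) (by linarith) (by linarith)
  have e : 5625 * (FF (1 / 15) (3 / 10) r p - 0 * (1 + r ^ 2 - 2 * p ^ 2)) =
      (r - (1 / 4)) ^ 0 * ((1 / 2) - r) ^ 6 * (828663232 * (p - 0) ^ 0 * ((1 / 4) - p) ^ 5 + 3465293728 * (p - 0) ^ 1 * ((1 / 4) - p) ^ 4 + 7985236828 * (p - 0) ^ 2 * ((1 / 4) - p) ^ 3 + 9855294932 * (p - 0) ^ 3 * ((1 / 4) - p) ^ 2 + 5406473044 * (p - 0) ^ 4 * ((1 / 4) - p) ^ 1 + 911290620 * (p - 0) ^ 5 * ((1 / 4) - p) ^ 0) +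
      (r - (1 / 4)) ^ 1 * ((1 / 2) - r) ^ 5 * (6243685632 * (p - 0) ^ 0 * ((1 / 4) - p) ^ 5 + 27786146688 * (p - 0) ^ 1 * ((1 / 4) - p) ^ 4 + 64862383440 * (p - 0) ^ 2 * ((1 / 4) - p) ^ 3 + 80735413488 * (p - 0) ^ 3 * ((1 / 4) - p) ^ 2 + 46412244720 * (p - 0) ^ 4 * ((1 / 4) - p) ^ 1 + 9065790672 * (p - 0) ^ 5 * ((1 / 4) - p) ^ 0) +
      (r - (1 / 4)) ^ 2 * ((1 / 2) - r) ^ 4 * (16528167168 * (p - 0) ^ 0 * ((1 / 4) - p) ^ 5 + 74519608704 * (p - 0) ^ 1 * ((1 / 4) - p) ^ 4 + 177240230160 * (p - 0) ^ 2 * ((1 / 4) - p) ^ 3 + 225955427376 * (p - 0) ^ 3 * ((1 / 4) - p) ^ 2 + 134633786928 * (p - 0) ^ 4 * ((1 / 4) - p) ^ 1 + 28099740816 * (p - 0) ^ 5 * ((1 / 4) - p) ^ 0) +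
      (r - (1 / 4)) ^ 3 * ((1 / 2) - r) ^ 3 * (20675876864 * (p - 0) ^ 0 * ((1 / 4) - p) ^ 5 + 91870241792 * (p - 0) ^ 1 * ((1 / 4) - p) ^ 4 + 225190096256 * (p - 0) ^ 2 * ((1 / 4) - p) ^ 3 + 299201896576 * (p - 0) ^ 3 * ((1 / 4) - p) ^ 2 + 185609785472 * (p - 0) ^ 4 * ((1 / 4) - p) ^ 1 + 40633743744 * (p - 0) ^ 5 * ((1 / 4) - p) ^ 0) +
      (r - (1 / 4)) ^ 4 * ((1 / 2) - r) ^ 2 * (12957852672 * (p - 0) ^ 0 * ((1 / 4) - p) ^ 5 + 54882878976 * (p - 0) ^ 1 * ((1 / 4) - p) ^ 4 + 142087766592 * (p - 0) ^ 2 * ((1 / 4) - p) ^ 3 + 202615270080 * (p - 0) ^ 3 * ((1 / 4) - p) ^ 2 + 132715516608 * (p - 0) ^ 4 * ((1 / 4) - p) ^ 1 + 30435579456 * (p - 0) ^ 5 * ((1 / 4) - p) ^ 0) +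
      (r - (1 / 4)) ^ 5 * ((1 / 2) - r) ^ 1 * (3745665024 * (p - 0) ^ 0 * ((1 / 4) - p) ^ 5 + 14047033344 * (p - 0) ^ 1 * ((1 / 4) - p) ^ 4 + 41061573888 * (p - 0) ^ 2 * ((1 / 4) - p) ^ 3 + 66787458816 * (p - 0) ^ 3 * ((1 / 4) - p) ^ 2 + 47452413696 * (p - 0) ^ 4 * ((1 / 4) - p) ^ 1 + 11494197504 * (p - 0) ^ 5 * ((1 / 4) - p) ^ 0) +
      (r - (1 / 4)) ^ 6 * ((1 / 2) - r) ^ 0 * (349106176 * (p - 0) ^ 0 * ((1 / 4) - p) ^ 5 + 827729920 * (p - 0) ^ 1 * ((1 / 4) - p) ^ 4 + 3783470848 * (p - 0) ^ 2 * ((1 / 4) - p) ^ 3 + 8279809280 * (p - 0) ^ 3 * ((1 / 4) - p) ^ 2 + 6708329728 * (p - 0) ^ 4 * ((1 / 4) - p) ^ 1 + 1744873728 * (p - 0) ^ 5 * ((1 / 4) - p) ^ 0) := by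
    unfold FF BB Qd
    ring
  rw [← e] at k2
  exact (mul_nonneg_iff_of_pos_left (by norm_num)).1 k2

lemma bx3_NUM (r p : ℝ) (h0 : (1 / 4) ≤ r) (h1 : r ≤ (3 / 8)) (h2 : (1 / 4) ≤ p) (h3 : p ≤ (1 / 2)) :
    0 ≤ FF (1 / 12) (1 / 5) r p - 0 * (1 + r ^ 2 - 2 * p ^ 2) := by
  have key : ∀ a b c d : ℝ, 0 ≤ a → 0 ≤ b → 0 ≤ c → 0 ≤ d → 0 ≤
      a ^ 0 * b ^ 6 * (95725305600 * c ^ 0 * d ^ 5 + 536127709440 * c ^ 1 * d ^ 4 + 1123004884224 * c ^ 2 * d ^ 3 + 1040617676544 * c ^ 3 * d ^ 2 + 385191450624 * c ^ 4 * d ^ 1 + 27912649728 * c ^ 5 * d ^ 0) +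
      a ^ 1 * b ^ 5 * (597586630400 * c ^ 0 * d ^ 5 + 3404435687680 * c ^ 1 * d ^ 4 + 7294609370368 * c ^ 2 * d ^ 3 + 7019777636096 * c ^ 3 * d ^ 2 + 2828055402496 * c ^ 4 * d ^ 1 + 300456451072 * c ^ 5 * d ^ 0) +
      a ^ 2 * b ^ 4 * (1490897614400 * c ^ 0 * d ^ 5 + 8648374383040 * c ^ 1 * d ^ 4 + 18908545472704 * c ^ 2 * d ^ 3 + 18711109631552 * c ^ 3 * d ^ 2 + 7941888911872 * c ^ 4 * d ^ 1 + 992893913344 * c ^ 5 * d ^ 0) +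
      a ^ 3 * b ^ 3 * (1907565264000 * c ^ 0 * d ^ 5 + 11300503835520 * c ^ 1 * d ^ 4 + 25210285252992 * c ^ 2 * d ^ 3 + 25525809876096 * c ^ 3 * d ^ 2 + 11226681824256 * c ^ 4 * d ^ 1 + 1532946534912 * c ^ 5 * d ^ 0) +
      a ^ 4 * b ^ 2 * (1317873808400 * c ^ 0 * d ^ 5 + 8016822150640 * c ^ 1 * d ^ 4 + 18287319442864 * c ^ 2 * d ^ 3 + 18906506876432 * c ^ 3 * d ^ 2 + 8535271591552 * c ^ 4 * d ^ 1 + 1228181744704 * c ^ 5 * d ^ 0) +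
      a ^ 5 * b ^ 1 * (463033996400 * c ^ 0 * d ^ 5 + 2920072520080 * c ^ 1 * d ^ 4 + 6842633568208 * c ^ 2 * d ^ 3 + 7224502895216 * c ^ 3 * d ^ 2 + 3328743826816 * c ^ 4 * d ^ 1 + 494254347712 * c ^ 5 * d ^ 0) +
      a ^ 6 * b ^ 0 * (63686915100 * c ^ 0 * d ^ 5 + 423675664740 * c ^ 1 * d ^ 4 + 1028632233204 * c ^ 2 * d ^ 3 + 1111828086684 * c ^ 3 * d ^ 2 + 521113997664 * c ^ 4 * d ^ 1 + 78665789808 * c ^ 5 * d ^ 0) := by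
    intro a b c d ha hb hc hd
    positivity
  have k2 := key (r - (1 / 4)) ((3 / 8) - r) (p - (1 / 4)) ((1 / 2) - p) (by linarith) (by linarith) (by linarith) (by linarith)
  have e : 5625 * (FF (1 / 12) (1 / 5) r p - 0 * (1 + r ^ 2 - 2 * p ^ 2)) =
      (r - (1 / 4)) ^ 0 * ((3 / 8) - r) ^ 6 * (95725305600 * (p - (1 / 4)) ^ 0 * ((1 / 2) - p) ^ 5 + 536127709440 * (p - (1 / 4)) ^ 1 * ((1 / 2) - p) ^ 4 + 1123004884224 * (p - (1 / 4)) ^ 2 * ((1 / 2) - p) ^ 3 + 1040617676544 * (p - (1 / 4)) ^ 3 * ((1 / 2) - p) ^ 2 + 385191450624 * (p - (1 / 4)) ^ 4 * ((1 / 2) - p) ^ 1 + 27912649728 * (p - (1 / 4)) ^ 5 * ((1 / 2) - p) ^ 0) +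
      (r - (1 / 4)) ^ 1 * ((3 / 8) - r) ^ 5 * (597586630400 * (p - (1 / 4)) ^ 0 * ((1 / 2) - p) ^ 5 + 3404435687680 * (p - (1 / 4)) ^ 1 * ((1 / 2) - p) ^ 4 + 7294609370368 * (p - (1 / 4)) ^ 2 * ((1 / 2) - p) ^ 3 + 7019777636096 * (p - (1 / 4)) ^ 3 * ((1 / 2) - p) ^ 2 + 2828055402496 * (p - (1 / 4)) ^ 4 * ((1 / 2) - p) ^ 1 + 300456451072 * (p - (1 / 4)) ^ 5 * ((1 / 2) - p) ^ 0) +
      (r - (1 / 4)) ^ 2 * ((3 / 8) - r) ^ 4 * (1490897614400 * (p - (1 / 4)) ^ 0 * ((1 / 2) - p) ^ 5 + 8648374383040 * (p - (1 / 4)) ^ 1 * ((1 / 2) - p) ^ 4 + 18908545472704 * (p - (1 / 4)) ^ 2 * ((1 / 2) - p) ^ 3 + 18711109631552 * (p - (1 / 4)) ^ 3 * ((1 / 2) - p) ^ 2 + 7941888911872 * (p - (1 / 4)) ^ 4 * ((1 / 2) - p) ^ 1 + 992893913344 * (p - (1 / 4)) ^ 5 * ((1 / 2) - p) ^ 0) +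
      (r - (1 / 4)) ^ 3 * ((3 / 8) - r) ^ 3 * (1907565264000 * (p - (1 / 4)) ^ 0 * ((1 / 2) - p) ^ 5 + 11300503835520 * (p - (1 / 4)) ^ 1 * ((1 / 2) - p) ^ 4 + 25210285252992 * (p - (1 / 4)) ^ 2 * ((1 / 2) - p) ^ 3 + 25525809876096 * (p - (1 / 4)) ^ 3 * ((1 / 2) - p) ^ 2 + 11226681824256 * (p - (1 / 4)) ^ 4 * ((1 / 2) - p) ^ 1 + 1532946534912 * (p - (1 / 4)) ^ 5 * ((1 / 2) - p) ^ 0) +
      (r - (1 / 4)) ^ 4 * ((3 / 8) - r) ^ 2 * (1317873808400 * (p - (1 / 4)) ^ 0 * ((1 / 2) - p) ^ 5 + 8016822150640 * (p - (1 / 4)) ^ 1 * ((1 / 2) - p) ^ 4 + 18287319442864 * (p - (1 / 4)) ^ 2 * ((1 / 2) - p) ^ 3 + 18906506876432 * (p - (1 / 4)) ^ 3 * ((1 / 2) - p) ^ 2 + 8535271591552 * (p - (1 / 4)) ^ 4 * ((1 / 2) - p) ^ 1 + 1228181744704 * (p - (1 / 4)) ^ 5 * ((1 / 2) - p) ^ 0) +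
      (r - (1 / 4)) ^ 5 * ((3 / 8) - r) ^ 1 * (463033996400 * (p - (1 / 4)) ^ 0 * ((1 / 2) - p) ^ 5 + 2920072520080 * (p - (1 / 4)) ^ 1 * ((1 / 2) - p) ^ 4 + 6842633568208 * (p - (1 / 4)) ^ 2 * ((1 / 2) - p) ^ 3 + 7224502895216 * (p - (1 / 4)) ^ 3 * ((1 / 2) - p) ^ 2 + 3328743826816 * (p - (1 / 4)) ^ 4 * ((1 / 2) - p) ^ 1 + 494254347712 * (p - (1 / 4)) ^ 5 * ((1 / 2) - p) ^ 0) +
      (r - (1 / 4)) ^ 6 * ((3 / 8) - r) ^ 0 * (63686915100 * (p - (1 / 4)) ^ 0 * ((1 / 2) - p) ^ 5 + 423675664740 * (p - (1 / 4)) ^ 1 * ((1 / 2) - p) ^ 4 + 1028632233204 * (p - (1 / 4)) ^ 2 * ((1 / 2) - p) ^ 3 + 1111828086684 * (p - (1 / 4)) ^ 3 * ((1 / 2) - p) ^ 2 + 521113997664 * (p - (1 / 4)) ^ 4 * ((1 / 2) - p) ^ 1 + 78665789808 * (p - (1 / 4)) ^ 5 * ((1 / 2) - p) ^ 0) := by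
    unfold FF BB Qd
    ring
  rw [← e] at k2
  exact (mul_nonneg_iff_of_pos_left (by norm_num)).1 k2

lemma bx4_NUM (r p : ℝ) (h0 : (3 / 8) ≤ r) (h1 : r ≤ (1 / 2)) (h2 : (1 / 4) ≤ p) (h3 : p ≤ (1 / 2)) :
    0 ≤ FF (1 / 10) (1 / 4) r p - 0 * (1 + r ^ 2 - 2 * p ^ 2) := by
  have key : ∀ a b c d : ℝ, 0 ≤ a → 0 ≤ b → 0 ≤ c → 0 ≤ d → 0 ≤
      a ^ 0 * b ^ 6 * (12421603900 * c ^ 0 * d ^ 5 + 74078363460 * c ^ 1 * d ^ 4 + 166366556756 * c ^ 2 * d ^ 3 + 169723769276 * c ^ 3 * d ^ 2 + 75078540896 * c ^ 4 * d ^ 1 + 10146390512 * c ^ 5 * d ^ 0) +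
      a ^ 1 * b ^ 5 * (74508856800 * c ^ 0 * d ^ 5 + 452882964000 * c ^ 1 * d ^ 4 + 1037172262560 * c ^ 2 * d ^ 3 + 1084577016288 * c ^ 3 * d ^ 2 + 499776246528 * c ^ 4 * d ^ 1 + 74488315776 * c ^ 5 * d ^ 0) +
      a ^ 2 * b ^ 4 * (180458945600 * c ^ 0 * d ^ 5 + 1121703783360 * c ^ 1 * d ^ 4 + 2621348166336 * c ^ 2 * d ^ 3 + 2801584866368 * c ^ 3 * d ^ 2 + 1331524213248 * c ^ 4 * d ^ 1 + 211270000896 * c ^ 5 * d ^ 0) +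
      a ^ 3 * b ^ 3 * (225993548800 * c ^ 0 * d ^ 5 + 1443949747200 * c ^ 1 * d ^ 4 + 3450479119360 * c ^ 2 * d ^ 3 + 3765239178240 * c ^ 3 * d ^ 2 + 1835377008640 * c ^ 4 * d ^ 1 + 304297185280 * c ^ 5 * d ^ 0) +
      a ^ 4 * b ^ 2 * (154036864000 * c ^ 0 * d ^ 5 + 1019525790720 * c ^ 1 * d ^ 4 + 2500100877312 * c ^ 2 * d ^ 3 + 2786690139136 * c ^ 3 * d ^ 2 + 1388875063296 * c ^ 4 * d ^ 1 + 238024200192 * c ^ 5 * d ^ 0) +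
      a ^ 5 * b ^ 1 * (53909708800 * c ^ 0 * d ^ 5 + 374048563200 * c ^ 1 * d ^ 4 + 946442772480 * c ^ 2 * d ^ 3 + 1079403470848 * c ^ 3 * d ^ 2 + 549275762688 * c ^ 4 * d ^ 1 + 96667140096 * c ^ 5 * d ^ 0) +
      a ^ 6 * b ^ 0 * (7494451200 * c ^ 0 * d ^ 5 + 55571988480 * c ^ 1 * d ^ 4 + 146275647488 * c ^ 2 * d ^ 3 + 171217764352 * c ^ 3 * d ^ 2 + 88949522432 * c ^ 4 * d ^ 1 + 16011689984 * c ^ 5 * d ^ 0) := by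
    intro a b c d ha hb hc hd
    positivity
  have k2 := key (r - (3 / 8)) ((1 / 2) - r) (p - (1 / 4)) ((1 / 2) - p) (by linarith) (by linarith) (by linarith) (by linarith)
  have e : 625 * (FF (1 / 10) (1 / 4) r p - 0 * (1 + r ^ 2 - 2 * p ^ 2)) =
      (r - (3 / 8)) ^ 0 * ((1 / 2) - r) ^ 6 * (12421603900 * (p - (1 / 4)) ^ 0 * ((1 / 2) - p) ^ 5 + 74078363460 * (p - (1 / 4)) ^ 1 * ((1 / 2) - p) ^ 4 + 166366556756 * (p - (1 / 4)) ^ 2 * ((1 / 2) - p) ^ 3 + 169723769276 * (p - (1 / 4)) ^ 3 * ((1 / 2) - p) ^ 2 + 75078540896 * (p - (1 / 4)) ^ 4 * ((1 / 2) - p) ^ 1 + 10146390512 * (p - (1 / 4)) ^ 5 * ((1 / 2) - p) ^ 0) +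
      (r - (3 / 8)) ^ 1 * ((1 / 2) - r) ^ 5 * (74508856800 * (p - (1 / 4)) ^ 0 * ((1 / 2) - p) ^ 5 + 452882964000 * (p - (1 / 4)) ^ 1 * ((1 / 2) - p) ^ 4 + 1037172262560 * (p - (1 / 4)) ^ 2 * ((1 / 2) - p) ^ 3 + 1084577016288 * (p - (1 / 4)) ^ 3 * ((1 / 2) - p) ^ 2 + 499776246528 * (p - (1 / 4)) ^ 4 * ((1 / 2) - p) ^ 1 + 74488315776 * (p - (1 / 4)) ^ 5 * ((1 / 2) - p) ^ 0) +
      (r - (3 / 8)) ^ 2 * ((1 / 2) - r) ^ 4 * (180458945600 * (p - (1 / 4)) ^ 0 * ((1 / 2) - p) ^ 5 + 1121703783360 * (p - (1 / 4)) ^ 1 * ((1 / 2) - p) ^ 4 + 2621348166336 * (p - (1 / 4)) ^ 2 * ((1 / 2) - p) ^ 3 + 2801584866368 * (p - (1 / 4)) ^ 3 * ((1 / 2) - p) ^ 2 + 1331524213248 * (p - (1 / 4)) ^ 4 * ((1 / 2) - p) ^ 1 + 211270000896 * (p - (1 / 4)) ^ 5 * ((1 / 2) - p) ^ 0) +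
      (r - (3 / 8)) ^ 3 * ((1 / 2) - r) ^ 3 * (225993548800 * (p - (1 / 4)) ^ 0 * ((1 / 2) - p) ^ 5 + 1443949747200 * (p - (1 / 4)) ^ 1 * ((1 / 2) - p) ^ 4 + 3450479119360 * (p - (1 / 4)) ^ 2 * ((1 / 2) - p) ^ 3 + 3765239178240 * (p - (1 / 4)) ^ 3 * ((1 / 2) - p) ^ 2 + 1835377008640 * (p - (1 / 4)) ^ 4 * ((1 / 2) - p) ^ 1 + 304297185280 * (p - (1 / 4)) ^ 5 * ((1 / 2) - p) ^ 0) +
      (r - (3 / 8)) ^ 4 * ((1 / 2) - r) ^ 2 * (154036864000 * (p - (1 / 4)) ^ 0 * ((1 / 2) - p) ^ 5 + 1019525790720 * (p - (1 / 4)) ^ 1 * ((1 / 2) - p) ^ 4 + 2500100877312 * (p - (1 / 4)) ^ 2 * ((1 / 2) - p) ^ 3 + 2786690139136 * (p - (1 / 4)) ^ 3 * ((1 / 2) - p) ^ 2 + 1388875063296 * (p - (1 / 4)) ^ 4 * ((1 / 2) - p) ^ 1 + 238024200192 * (p - (1 / 4)) ^ 5 * ((1 / 2) - p) ^ 0) +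
      (r - (3 / 8)) ^ 5 * ((1 / 2) - r) ^ 1 * (53909708800 * (p - (1 / 4)) ^ 0 * ((1 / 2) - p) ^ 5 + 374048563200 * (p - (1 / 4)) ^ 1 * ((1 / 2) - p) ^ 4 + 946442772480 * (p - (1 / 4)) ^ 2 * ((1 / 2) - p) ^ 3 + 1079403470848 * (p - (1 / 4)) ^ 3 * ((1 / 2) - p) ^ 2 + 549275762688 * (p - (1 / 4)) ^ 4 * ((1 / 2) - p) ^ 1 + 96667140096 * (p - (1 / 4)) ^ 5 * ((1 / 2) - p) ^ 0) +
      (r - (3 / 8)) ^ 6 * ((1 / 2) - r) ^ 0 * (7494451200 * (p - (1 / 4)) ^ 0 * ((1 / 2) - p) ^ 5 + 55571988480 * (p - (1 / 4)) ^ 1 * ((1 / 2) - p) ^ 4 + 146275647488 * (p - (1 / 4)) ^ 2 * ((1 / 2) - p) ^ 3 + 171217764352 * (p - (1 / 4)) ^ 3 * ((1 / 2) - p) ^ 2 + 88949522432 * (p - (1 / 4)) ^ 4 * ((1 / 2) - p) ^ 1 + 16011689984 * (p - (1 / 4)) ^ 5 * ((1 / 2) - p) ^ 0) := by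
    unfold FF BB Qd
    ring
  rw [← e] at k2
  exact (mul_nonneg_iff_of_pos_left (by norm_num)).1 k2

lemma bx5_NUM (r p : ℝ) (h0 : 0 ≤ r) (h1 : r ≤ (1 / 4)) (h2 : (1 / 2) ≤ p) (h3 : p ≤ 1) :
    0 ≤ FF (3 / 20) 0 r p - 0 * (1 + r ^ 2 - 2 * p ^ 2) := by
  have key : ∀ a b c d : ℝ, 0 ≤ a → 0 ≤ b → 0 ≤ c → 0 ≤ d → 0 ≤
      a ^ 0 * b ^ 6 * (92984320 * c ^ 0 * d ^ 5 + 853288960 * c ^ 1 * d ^ 4 + 2981437440 * c ^ 2 * d ^ 3 + 5059858432 * c ^ 3 * d ^ 2 + 4211965952 * c ^ 4 * d ^ 1 + 1375797248 * c ^ 5 * d ^ 0) +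
      a ^ 1 * b ^ 5 * (557905920 * c ^ 0 * d ^ 5 + 5119733760 * c ^ 1 * d ^ 4 + 17888624640 * c ^ 2 * d ^ 3 + 30359150592 * c ^ 3 * d ^ 2 + 25271795712 * c ^ 4 * d ^ 1 + 8254783488 * c ^ 5 * d ^ 0) +
      a ^ 2 * b ^ 4 * (1331229184 * c ^ 0 * d ^ 5 + 12431243776 * c ^ 1 * d ^ 4 + 43872125440 * c ^ 2 * d ^ 3 + 74922755584 * c ^ 3 * d ^ 2 + 62622871552 * c ^ 4 * d ^ 1 + 20510580736 * c ^ 5 * d ^ 0) +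
      a ^ 3 * b ^ 3 * (1605543936 * c ^ 0 * d ^ 5 + 15593416704 * c ^ 1 * d ^ 4 + 56231004160 * c ^ 2 * d ^ 3 + 97296685056 * c ^ 3 * d ^ 2 + 82012848128 * c ^ 4 * d ^ 1 + 27010433024 * c ^ 5 * d ^ 0) +
      a ^ 4 * b ^ 2 * (1015330656 * c ^ 0 * d ^ 5 + 10600874784 * c ^ 1 * d ^ 4 + 39647683360 * c ^ 2 * d ^ 3 + 70072658016 * c ^ 3 * d ^ 2 + 59854019328 * c ^ 4 * d ^ 1 + 19881854464 * c ^ 5 * d ^ 0) +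
      a ^ 5 * b ^ 1 * (307322560 * c ^ 0 * d ^ 5 + 3667539520 * c ^ 1 * d ^ 4 + 14536357440 * c ^ 2 * d ^ 3 + 26509680832 * c ^ 3 * d ^ 2 + 23073797632 * c ^ 4 * d ^ 1 + 7755598848 * c ^ 5 * d ^ 0) +
      a ^ 6 * b ^ 0 * (31205783 * c ^ 0 * d ^ 5 + 495155117 * c ^ 1 * d ^ 4 + 2154452845 * c ^ 2 * d ^ 3 + 4109922335 * c ^ 3 * d ^ 2 + 3669404856 * c ^ 4 * d ^ 1 + 1252542960 * c ^ 5 * d ^ 0) := by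
    intro a b c d ha hb hc hd
    positivity
  have k2 := key (r - 0) ((1 / 4) - r) (p - (1 / 2)) (1 - p) (by linarith) (by linarith) (by linarith) (by linarith)
  have e : 1250 * (FF (3 / 20) 0 r p - 0 * (1 + r ^ 2 - 2 * p ^ 2)) =
      (r - 0) ^ 0 * ((1 / 4) - r) ^ 6 * (92984320 * (p - (1 / 2)) ^ 0 * (1 - p) ^ 5 + 853288960 * (p - (1 / 2)) ^ 1 * (1 - p) ^ 4 + 2981437440 * (p - (1 / 2)) ^ 2 * (1 - p) ^ 3 + 5059858432 * (p - (1 / 2)) ^ 3 * (1 - p) ^ 2 + 4211965952 * (p - (1 / 2)) ^ 4 * (1 - p) ^ 1 + 1375797248 * (p - (1 / 2)) ^ 5 * (1 - p) ^ 0) +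
      (r - 0) ^ 1 * ((1 / 4) - r) ^ 5 * (557905920 * (p - (1 / 2)) ^ 0 * (1 - p) ^ 5 + 5119733760 * (p - (1 / 2)) ^ 1 * (1 - p) ^ 4 + 17888624640 * (p - (1 / 2)) ^ 2 * (1 - p) ^ 3 + 30359150592 * (p - (1 / 2)) ^ 3 * (1 - p) ^ 2 + 25271795712 * (p - (1 / 2)) ^ 4 * (1 - p) ^ 1 + 8254783488 * (p - (1 / 2)) ^ 5 * (1 - p) ^ 0) +
      (r - 0) ^ 2 * ((1 / 4) - r) ^ 4 * (1331229184 * (p - (1 / 2)) ^ 0 * (1 - p) ^ 5 + 12431243776 * (p - (1 / 2)) ^ 1 * (1 - p) ^ 4 + 43872125440 * (p - (1 / 2)) ^ 2 * (1 - p) ^ 3 + 74922755584 * (p - (1 / 2)) ^ 3 * (1 - p) ^ 2 + 62622871552 * (p - (1 / 2)) ^ 4 * (1 - p) ^ 1 + 20510580736 * (p - (1 / 2)) ^ 5 * (1 - p) ^ 0) +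
      (r - 0) ^ 3 * ((1 / 4) - r) ^ 3 * (1605543936 * (p - (1 / 2)) ^ 0 * (1 - p) ^ 5 + 15593416704 * (p - (1 / 2)) ^ 1 * (1 - p) ^ 4 + 56231004160 * (p - (1 / 2)) ^ 2 * (1 - p) ^ 3 + 97296685056 * (p - (1 / 2)) ^ 3 * (1 - p) ^ 2 + 82012848128 * (p - (1 / 2)) ^ 4 * (1 - p) ^ 1 + 27010433024 * (p - (1 / 2)) ^ 5 * (1 - p) ^ 0) +
      (r - 0) ^ 4 * ((1 / 4) - r) ^ 2 * (1015330656 * (p - (1 / 2)) ^ 0 * (1 - p) ^ 5 + 10600874784 * (p - (1 / 2)) ^ 1 * (1 - p) ^ 4 + 39647683360 * (p - (1 / 2)) ^ 2 * (1 - p) ^ 3 + 70072658016 * (p - (1 / 2)) ^ 3 * (1 - p) ^ 2 + 59854019328 * (p - (1 / 2)) ^ 4 * (1 - p) ^ 1 + 19881854464 * (p - (1 / 2)) ^ 5 * (1 - p) ^ 0) +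
      (r - 0) ^ 5 * ((1 / 4) - r) ^ 1 * (307322560 * (p - (1 / 2)) ^ 0 * (1 - p) ^ 5 + 3667539520 * (p - (1 / 2)) ^ 1 * (1 - p) ^ 4 + 14536357440 * (p - (1 / 2)) ^ 2 * (1 - p) ^ 3 + 26509680832 * (p - (1 / 2)) ^ 3 * (1 - p) ^ 2 + 23073797632 * (p - (1 / 2)) ^ 4 * (1 - p) ^ 1 + 7755598848 * (p - (1 / 2)) ^ 5 * (1 - p) ^ 0) +
      (r - 0) ^ 6 * ((1 / 4) - r) ^ 0 * (31205783 * (p - (1 / 2)) ^ 0 * (1 - p) ^ 5 + 495155117 * (p - (1 / 2)) ^ 1 * (1 - p) ^ 4 + 2154452845 * (p - (1 / 2)) ^ 2 * (1 - p) ^ 3 + 4109922335 * (p - (1 / 2)) ^ 3 * (1 - p) ^ 2 + 3669404856 * (p - (1 / 2)) ^ 4 * (1 - p) ^ 1 + 1252542960 * (p - (1 / 2)) ^ 5 * (1 - p) ^ 0) := by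
    unfold FF BB Qd
    ring
  rw [← e] at k2
  exact (mul_nonneg_iff_of_pos_left (by norm_num)).1 k2

lemma bx6_NUM (r p : ℝ) (h0 : (1 / 4) ≤ r) (h1 : r ≤ (3 / 8)) (h2 : (1 / 2) ≤ p) (h3 : p ≤ (3 / 4)) :
    0 ≤ FF (7 / 60) (1 / 10) r p - 0 * (1 + r ^ 2 - 2 * p ^ 2) := by
  have key : ∀ a b c d : ℝ, 0 ≤ a → 0 ≤ b → 0 ≤ c → 0 ≤ d → 0 ≤
      a ^ 0 * b ^ 6 * (271009790976 * c ^ 0 * d ^ 5 + 1903736471552 * c ^ 1 * d ^ 4 + 5230280064768 * c ^ 2 * d ^ 3 + 7098441504000 * c ^ 3 * d ^ 2 + 4792655692032 * c ^ 4 * d ^ 1 + 1292503967488 * c ^ 5 * d ^ 0) +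
      a ^ 1 * b ^ 5 * (1493518359552 * c ^ 0 * d ^ 5 + 10764740149248 * c ^ 1 * d ^ 4 + 30089088980736 * c ^ 2 * d ^ 3 + 41333543017728 * c ^ 3 * d ^ 2 + 28151483574528 * c ^ 4 * d ^ 1 + 7640226119424 * c ^ 5 * d ^ 0) +
      a ^ 2 * b ^ 4 * (3293962356992 * c ^ 0 * d ^ 5 + 24682688163840 * c ^ 1 * d ^ 4 + 70731063662144 * c ^ 2 * d ^ 3 + 98835519012032 * c ^ 3 * d ^ 2 + 68139527113152 * c ^ 4 * d ^ 1 + 18657391885376 * c ^ 5 * d ^ 0) +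
      a ^ 3 * b ^ 3 * (3668544049664 * c ^ 0 * d ^ 5 + 29199053381632 * c ^ 1 * d ^ 4 + 86726246710400 * c ^ 2 * d ^ 3 + 124068304923008 * c ^ 3 * d ^ 2 + 86945681933184 * c ^ 4 * d ^ 1 + 24087842293888 * c ^ 5 * d ^ 0) +
      a ^ 4 * b ^ 2 * (2112725593152 * c ^ 0 * d ^ 5 + 18596816808960 * c ^ 1 * d ^ 4 + 58238486432784 * c ^ 2 * d ^ 3 + 86060647814832 * c ^ 3 * d ^ 2 + 61630214806512 * c ^ 4 * d ^ 1 + 17335008137616 * c ^ 5 * d ^ 0) +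
      a ^ 5 * b ^ 1 * (554096580032 * c ^ 0 * d ^ 5 + 5925737100288 * c ^ 1 * d ^ 4 + 20158281677936 * c ^ 2 * d ^ 3 + 31180921607888 * c ^ 3 * d ^ 2 + 22979759365008 * c ^ 4 * d ^ 1 + 6589897286384 * c ^ 5 * d ^ 0) +
      a ^ 6 * b ^ 0 * (38458012016 * c ^ 0 * d ^ 5 + 706271927552 * c ^ 1 * d ^ 4 + 2773750443548 * c ^ 2 * d ^ 3 + 4588122114740 * c ^ 3 * d ^ 2 + 3514506495972 * c ^ 4 * d ^ 1 + 1033057304508 * c ^ 5 * d ^ 0) := by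
    intro a b c d ha hb hc hd
    positivity
  have k2 := key (r - (1 / 4)) ((3 / 8) - r) (p - (1 / 2)) ((3 / 4) - p) (by linarith) (by linarith) (by linarith) (by linarith)
  have e : 5625 * (FF (7 / 60) (1 / 10) r p - 0 * (1 + r ^ 2 - 2 * p ^ 2)) =
      (r - (1 / 4)) ^ 0 * ((3 / 8) - r) ^ 6 * (271009790976 * (p - (1 / 2)) ^ 0 * ((3 / 4) - p) ^ 5 + 1903736471552 * (p - (1 / 2)) ^ 1 * ((3 / 4) - p) ^ 4 + 5230280064768 * (p - (1 / 2)) ^ 2 * ((3 / 4) - p) ^ 3 + 7098441504000 * (p - (1 / 2)) ^ 3 * ((3 / 4) - p) ^ 2 + 4792655692032 * (p - (1 / 2)) ^ 4 * ((3 / 4) - p) ^ 1 + 1292503967488 * (p - (1 / 2)) ^ 5 * ((3 / 4) - p) ^ 0) +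
      (r - (1 / 4)) ^ 1 * ((3 / 8) - r) ^ 5 * (1493518359552 * (p - (1 / 2)) ^ 0 * ((3 / 4) - p) ^ 5 + 10764740149248 * (p - (1 / 2)) ^ 1 * ((3 / 4) - p) ^ 4 + 30089088980736 * (p - (1 / 2)) ^ 2 * ((3 / 4) - p) ^ 3 + 41333543017728 * (p - (1 / 2)) ^ 3 * ((3 / 4) - p) ^ 2 + 28151483574528 * (p - (1 / 2)) ^ 4 * ((3 / 4) - p) ^ 1 + 7640226119424 * (p - (1 / 2)) ^ 5 * ((3 / 4) - p) ^ 0) +
      (r - (1 / 4)) ^ 2 * ((3 / 8) - r) ^ 4 * (3293962356992 * (p - (1 / 2)) ^ 0 * ((3 / 4) - p) ^ 5 + 24682688163840 * (p - (1 / 2)) ^ 1 * ((3 / 4) - p) ^ 4 + 70731063662144 * (p - (1 / 2)) ^ 2 * ((3 / 4) - p) ^ 3 + 98835519012032 * (p - (1 / 2)) ^ 3 * ((3 / 4) - p) ^ 2 + 68139527113152 * (p - (1 / 2)) ^ 4 * ((3 / 4) - p) ^ 1 + 18657391885376 * (p - (1 / 2)) ^ 5 * ((3 / 4) - p) ^ 0) +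
      (r - (1 / 4)) ^ 3 * ((3 / 8) - r) ^ 3 * (3668544049664 * (p - (1 / 2)) ^ 0 * ((3 / 4) - p) ^ 5 + 29199053381632 * (p - (1 / 2)) ^ 1 * ((3 / 4) - p) ^ 4 + 86726246710400 * (p - (1 / 2)) ^ 2 * ((3 / 4) - p) ^ 3 + 124068304923008 * (p - (1 / 2)) ^ 3 * ((3 / 4) - p) ^ 2 + 86945681933184 * (p - (1 / 2)) ^ 4 * ((3 / 4) - p) ^ 1 + 24087842293888 * (p - (1 / 2)) ^ 5 * ((3 / 4) - p) ^ 0) +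
      (r - (1 / 4)) ^ 4 * ((3 / 8) - r) ^ 2 * (2112725593152 * (p - (1 / 2)) ^ 0 * ((3 / 4) - p) ^ 5 + 18596816808960 * (p - (1 / 2)) ^ 1 * ((3 / 4) - p) ^ 4 + 58238486432784 * (p - (1 / 2)) ^ 2 * ((3 / 4) - p) ^ 3 + 86060647814832 * (p - (1 / 2)) ^ 3 * ((3 / 4) - p) ^ 2 + 61630214806512 * (p - (1 / 2)) ^ 4 * ((3 / 4) - p) ^ 1 + 17335008137616 * (p - (1 / 2)) ^ 5 * ((3 / 4) - p) ^ 0) +
      (r - (1 / 4)) ^ 5 * ((3 / 8) - r) ^ 1 * (554096580032 * (p - (1 / 2)) ^ 0 * ((3 / 4) - p) ^ 5 + 5925737100288 * (p - (1 / 2)) ^ 1 * ((3 / 4) - p) ^ 4 + 20158281677936 * (p - (1 / 2)) ^ 2 * ((3 / 4) - p) ^ 3 + 31180921607888 * (p - (1 / 2)) ^ 3 * ((3 / 4) - p) ^ 2 + 22979759365008 * (p - (1 / 2)) ^ 4 * ((3 / 4) - p) ^ 1 + 6589897286384 * (p - (1 / 2)) ^ 5 * ((3 / 4) - p) ^ 0) +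
      (r - (1 / 4)) ^ 6 * ((3 / 8) - r) ^ 0 * (38458012016 * (p - (1 / 2)) ^ 0 * ((3 / 4) - p) ^ 5 + 706271927552 * (p - (1 / 2)) ^ 1 * ((3 / 4) - p) ^ 4 + 2773750443548 * (p - (1 / 2)) ^ 2 * ((3 / 4) - p) ^ 3 + 4588122114740 * (p - (1 / 2)) ^ 3 * ((3 / 4) - p) ^ 2 + 3514506495972 * (p - (1 / 2)) ^ 4 * ((3 / 4) - p) ^ 1 + 1033057304508 * (p - (1 / 2)) ^ 5 * ((3 / 4) - p) ^ 0) := by
    unfold FF BB Qd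
    ring
  rw [← e] at k2
  exact (mul_nonneg_iff_of_pos_left (by norm_num)).1 k2

lemma bx7_NUM (r p : ℝ) (h0 : (3 / 8) ≤ r) (h1 : r ≤ (1 / 2)) (h2 : (1 / 2) ≤ p) (h3 : p ≤ (3 / 4)) :
    0 ≤ FF (7 / 60) (1 / 5) r p - 0 * (1 + r ^ 2 - 2 * p ^ 2) := by
  have key : ∀ a b c d : ℝ, 0 ≤ a → 0 ≤ b → 0 ≤ c → 0 ≤ d → 0 ≤
      a ^ 0 * b ^ 6 * (122750022000 * c ^ 0 * d ^ 5 + 662811598080 * c ^ 1 * d ^ 4 + 1362735492636 * c ^ 2 * d ^ 3 + 1340995865268 * c ^ 3 * d ^ 2 + 645730453476 * c ^ 4 * d ^ 1 + 128144900028 * c ^ 5 * d ^ 0) +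
      a ^ 1 * b ^ 5 * (736650689408 * c ^ 0 * d ^ 5 + 4080451184640 * c ^ 1 * d ^ 4 + 8623497489632 * c ^ 2 * d ^ 3 + 8767244790176 * c ^ 3 * d ^ 2 + 4389241914144 * c ^ 4 * d ^ 1 + 906112489952 * c ^ 5 * d ^ 0) +
      a ^ 2 * b ^ 4 * (1754281502976 * c ^ 0 * d ^ 5 + 9984439627776 * c ^ 1 * d ^ 4 + 21646067285568 * c ^ 2 * d ^ 3 + 22606760457408 * c ^ 3 * d ^ 2 + 11658403832256 * c ^ 4 * d ^ 1 + 2478598464576 * c ^ 5 * d ^ 0) +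
      a ^ 3 * b ^ 3 * (2116172320768 * c ^ 0 * d ^ 5 + 12445760028672 * c ^ 1 * d ^ 4 + 27723895211008 * c ^ 2 * d ^ 3 + 29702023785472 * c ^ 3 * d ^ 2 + 15723518819328 * c ^ 4 * d ^ 1 + 3430530442240 * c ^ 5 * d ^ 0) +
      a ^ 4 * b ^ 2 * (1348672655360 * c ^ 0 * d ^ 5 + 8296116977664 * c ^ 1 * d ^ 4 + 19095906427904 * c ^ 2 * d ^ 3 + 21030125308928 * c ^ 3 * d ^ 2 + 11430369745920 * c ^ 4 * d ^ 1 + 2559752471552 * c ^ 5 * d ^ 0) +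
      a ^ 5 * b ^ 1 * (419142795264 * c ^ 0 * d ^ 5 + 2767015378944 * c ^ 1 * d ^ 4 + 6662660087808 * c ^ 2 * d ^ 3 + 7590268477440 * c ^ 3 * d ^ 2 + 4251597742080 * c ^ 4 * d ^ 1 + 980535140352 * c ^ 5 * d ^ 0) +
      a ^ 6 * b ^ 0 * (46258388992 * c ^ 0 * d ^ 5 + 349841129472 * c ^ 1 * d ^ 4 + 905306816512 * c ^ 2 * d ^ 3 + 1081616318464 * c ^ 3 * d ^ 2 + 629833678848 * c ^ 4 * d ^ 1 + 150677831680 * c ^ 5 * d ^ 0) := by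
    intro a b c d ha hb hc hd
    positivity
  have k2 := key (r - (3 / 8)) ((1 / 2) - r) (p - (1 / 2)) ((3 / 4) - p) (by linarith) (by linarith) (by linarith) (by linarith)
  have e : 5625 * (FF (7 / 60) (1 / 5) r p - 0 * (1 + r ^ 2 - 2 * p ^ 2)) =
      (r - (3 / 8)) ^ 0 * ((1 / 2) - r) ^ 6 * (122750022000 * (p - (1 / 2)) ^ 0 * ((3 / 4) - p) ^ 5 + 662811598080 * (p - (1 / 2)) ^ 1 * ((3 / 4) - p) ^ 4 + 1362735492636 * (p - (1 / 2)) ^ 2 * ((3 / 4) - p) ^ 3 + 1340995865268 * (p - (1 / 2)) ^ 3 * ((3 / 4) - p) ^ 2 + 645730453476 * (p - (1 / 2)) ^ 4 * ((3 / 4) - p) ^ 1 + 128144900028 * (p - (1 / 2)) ^ 5 * ((3 / 4) - p) ^ 0) +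
      (r - (3 / 8)) ^ 1 * ((1 / 2) - r) ^ 5 * (736650689408 * (p - (1 / 2)) ^ 0 * ((3 / 4) - p) ^ 5 + 4080451184640 * (p - (1 / 2)) ^ 1 * ((3 / 4) - p) ^ 4 + 8623497489632 * (p - (1 / 2)) ^ 2 * ((3 / 4) - p) ^ 3 + 8767244790176 * (p - (1 / 2)) ^ 3 * ((3 / 4) - p) ^ 2 + 4389241914144 * (p - (1 / 2)) ^ 4 * ((3 / 4) - p) ^ 1 + 906112489952 * (p - (1 / 2)) ^ 5 * ((3 / 4) - p) ^ 0) +
      (r - (3 / 8)) ^ 2 * ((1 / 2) - r) ^ 4 * (1754281502976 * (p - (1 / 2)) ^ 0 * ((3 / 4) - p) ^ 5 + 9984439627776 * (p - (1 / 2)) ^ 1 * ((3 / 4) - p) ^ 4 + 21646067285568 * (p - (1 / 2)) ^ 2 * ((3 / 4) - p) ^ 3 + 22606760457408 * (p - (1 / 2)) ^ 3 * ((3 / 4) - p) ^ 2 + 11658403832256 * (p - (1 / 2)) ^ 4 * ((3 / 4) - p) ^ 1 + 2478598464576 * (p - (1 / 2)) ^ 5 * ((3 / 4) - p) ^ 0) +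
      (r - (3 / 8)) ^ 3 * ((1 / 2) - r) ^ 3 * (2116172320768 * (p - (1 / 2)) ^ 0 * ((3 / 4) - p) ^ 5 + 12445760028672 * (p - (1 / 2)) ^ 1 * ((3 / 4) - p) ^ 4 + 27723895211008 * (p - (1 / 2)) ^ 2 * ((3 / 4) - p) ^ 3 + 29702023785472 * (p - (1 / 2)) ^ 3 * ((3 / 4) - p) ^ 2 + 15723518819328 * (p - (1 / 2)) ^ 4 * ((3 / 4) - p) ^ 1 + 3430530442240 * (p - (1 / 2)) ^ 5 * ((3 / 4) - p) ^ 0) +
      (r - (3 / 8)) ^ 4 * ((1 / 2) - r) ^ 2 * (1348672655360 * (p - (1 / 2)) ^ 0 * ((3 / 4) - p) ^ 5 + 8296116977664 * (p - (1 / 2)) ^ 1 * ((3 / 4) - p) ^ 4 + 19095906427904 * (p - (1 / 2)) ^ 2 * ((3 / 4) - p) ^ 3 + 21030125308928 * (p - (1 / 2)) ^ 3 * ((3 / 4) - p) ^ 2 + 11430369745920 * (p - (1 / 2)) ^ 4 * ((3 / 4) - p) ^ 1 + 2559752471552 * (p - (1 / 2)) ^ 5 * ((3 / 4) - p) ^ 0) +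
      (r - (3 / 8)) ^ 5 * ((1 / 2) - r) ^ 1 * (419142795264 * (p - (1 / 2)) ^ 0 * ((3 / 4) - p) ^ 5 + 2767015378944 * (p - (1 / 2)) ^ 1 * ((3 / 4) - p) ^ 4 + 6662660087808 * (p - (1 / 2)) ^ 2 * ((3 / 4) - p) ^ 3 + 7590268477440 * (p - (1 / 2)) ^ 3 * ((3 / 4) - p) ^ 2 + 4251597742080 * (p - (1 / 2)) ^ 4 * ((3 / 4) - p) ^ 1 + 980535140352 * (p - (1 / 2)) ^ 5 * ((3 / 4) - p) ^ 0) +
      (r - (3 / 8)) ^ 6 * ((1 / 2) - r) ^ 0 * (46258388992 * (p - (1 / 2)) ^ 0 * ((3 / 4) - p) ^ 5 + 349841129472 * (p - (1 / 2)) ^ 1 * ((3 / 4) - p) ^ 4 + 905306816512 * (p - (1 / 2)) ^ 2 * ((3 / 4) - p) ^ 3 + 1081616318464 * (p - (1 / 2)) ^ 3 * ((3 / 4) - p) ^ 2 + 629833678848 * (p - (1 / 2)) ^ 4 * ((3 / 4) - p) ^ 1 + 150677831680 * (p - (1 / 2)) ^ 5 * ((3 / 4) - p) ^ 0) := by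
    unfold FF BB Qd
    ring
  rw [← e] at k2
  exact (mul_nonneg_iff_of_pos_left (by norm_num)).1 k2

lemma bx8_NUM (r p : ℝ) (h0 : (1 / 4) ≤ r) (h1 : r ≤ (1 / 2)) (h2 : (3 / 4) ≤ p) (h3 : p ≤ 1) :
    0 ≤ FF (3 / 16) 0 r p - 0 * (1 + r ^ 2 - 2 * p ^ 2) := by
  have key : ∀ a b c d : ℝ, 0 ≤ a → 0 ≤ b → 0 ≤ c → 0 ≤ d → 0 ≤
      a ^ 0 * b ^ 6 * (6244757948 * c ^ 0 * d ^ 5 + 41472638836 * c ^ 1 * d ^ 4 + 108572009972 * c ^ 2 * d ^ 3 + 140475776636 * c ^ 3 * d ^ 2 + 90009584448 * c ^ 4 * d ^ 1 + 22879215360 * c ^ 5 * d ^ 0) +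
      a ^ 1 * b ^ 5 * (34430122960 * c ^ 0 * d ^ 5 + 232569325168 * c ^ 1 * d ^ 4 + 616639156848 * c ^ 2 * d ^ 3 + 805690750672 * c ^ 3 * d ^ 2 + 520234489600 * c ^ 4 * d ^ 1 + 133051364352 * c ^ 5 * d ^ 0) +
      a ^ 2 * b ^ 4 * (77109179024 * c ^ 0 * d ^ 5 + 533412131504 * c ^ 1 * d ^ 4 + 1438884137392 * c ^ 2 * d ^ 3 + 1904491417232 * c ^ 3 * d ^ 2 + 1242042485504 * c ^ 4 * d ^ 1 + 320151430144 * c ^ 5 * d ^ 0) +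
      a ^ 3 * b ^ 3 * (89175875968 * c ^ 0 * d ^ 5 + 638175698048 * c ^ 1 * d ^ 4 + 1762206427264 * c ^ 2 * d ^ 3 + 2372283858304 * c ^ 3 * d ^ 2 + 1566917756928 * c ^ 4 * d ^ 1 + 407866073088 * c ^ 5 * d ^ 0) +
      a ^ 4 * b ^ 2 * (55533827648 * c ^ 0 * d ^ 5 + 417824017088 * c ^ 1 * d ^ 4 + 1191476553664 * c ^ 2 * d ^ 3 + 1640043838784 * c ^ 3 * d ^ 2 + 1100894379008 * c ^ 4 * d ^ 1 + 290056081408 * c ^ 5 * d ^ 0) +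
      a ^ 5 * b ^ 1 * (17291739904 * c ^ 0 * d ^ 5 + 140743151872 * c ^ 1 * d ^ 4 + 420073870080 * c ^ 2 * d ^ 3 + 595568099584 * c ^ 3 * d ^ 2 + 408072269824 * c ^ 4 * d ^ 1 + 109134299136 * c ^ 5 * d ^ 0) +
      a ^ 6 * b ^ 0 * (2009484800 * c ^ 0 * d ^ 5 + 18776800768 * c ^ 1 * d ^ 4 + 59981289728 * c ^ 2 * d ^ 3 + 88525912832 * c ^ 3 * d ^ 2 + 62275031040 * c ^ 4 * d ^ 1 + 16964370432 * c ^ 5 * d ^ 0) := by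
    intro a b c d ha hb hc hd
    positivity
  have k2 := key (r - (1 / 4)) ((1 / 2) - r) (p - (3 / 4)) (1 - p) (by linarith) (by linarith) (by linarith) (by linarith)
  have e : 625 * (FF (3 / 16) 0 r p - 0 * (1 + r ^ 2 - 2 * p ^ 2)) =
      (r - (1 / 4)) ^ 0 * ((1 / 2) - r) ^ 6 * (6244757948 * (p - (3 / 4)) ^ 0 * (1 - p) ^ 5 + 41472638836 * (p - (3 / 4)) ^ 1 * (1 - p) ^ 4 + 108572009972 * (p - (3 / 4)) ^ 2 * (1 - p) ^ 3 + 140475776636 * (p - (3 / 4)) ^ 3 * (1 - p) ^ 2 + 90009584448 * (p - (3 / 4)) ^ 4 * (1 - p) ^ 1 + 22879215360 * (p - (3 / 4)) ^ 5 * (1 - p) ^ 0) +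
      (r - (1 / 4)) ^ 1 * ((1 / 2) - r) ^ 5 * (34430122960 * (p - (3 / 4)) ^ 0 * (1 - p) ^ 5 + 232569325168 * (p - (3 / 4)) ^ 1 * (1 - p) ^ 4 + 616639156848 * (p - (3 / 4)) ^ 2 * (1 - p) ^ 3 + 805690750672 * (p - (3 / 4)) ^ 3 * (1 - p) ^ 2 + 520234489600 * (p - (3 / 4)) ^ 4 * (1 - p) ^ 1 + 133051364352 * (p - (3 / 4)) ^ 5 * (1 - p) ^ 0) +
      (r - (1 / 4)) ^ 2 * ((1 / 2) - r) ^ 4 * (77109179024 * (p - (3 / 4)) ^ 0 * (1 - p) ^ 5 + 533412131504 * (p - (3 / 4)) ^ 1 * (1 - p) ^ 4 + 1438884137392 * (p - (3 / 4)) ^ 2 * (1 - p) ^ 3 + 1904491417232 * (p - (3 / 4)) ^ 3 * (1 - p) ^ 2 + 1242042485504 * (p - (3 / 4)) ^ 4 * (1 - p) ^ 1 + 320151430144 * (p - (3 / 4)) ^ 5 * (1 - p) ^ 0) +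
      (r - (1 / 4)) ^ 3 * ((1 / 2) - r) ^ 3 * (89175875968 * (p - (3 / 4)) ^ 0 * (1 - p) ^ 5 + 638175698048 * (p - (3 / 4)) ^ 1 * (1 - p) ^ 4 + 1762206427264 * (p - (3 / 4)) ^ 2 * (1 - p) ^ 3 + 2372283858304 * (p - (3 / 4)) ^ 3 * (1 - p) ^ 2 + 1566917756928 * (p - (3 / 4)) ^ 4 * (1 - p) ^ 1 + 407866073088 * (p - (3 / 4)) ^ 5 * (1 - p) ^ 0) +
      (r - (1 / 4)) ^ 4 * ((1 / 2) - r) ^ 2 * (55533827648 * (p - (3 / 4)) ^ 0 * (1 - p) ^ 5 + 417824017088 * (p - (3 / 4)) ^ 1 * (1 - p) ^ 4 + 1191476553664 * (p - (3 / 4)) ^ 2 * (1 - p) ^ 3 + 1640043838784 * (p - (3 / 4)) ^ 3 * (1 - p) ^ 2 + 1100894379008 * (p - (3 / 4)) ^ 4 * (1 - p) ^ 1 + 290056081408 * (p - (3 / 4)) ^ 5 * (1 - p) ^ 0) +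
      (r - (1 / 4)) ^ 5 * ((1 / 2) - r) ^ 1 * (17291739904 * (p - (3 / 4)) ^ 0 * (1 - p) ^ 5 + 140743151872 * (p - (3 / 4)) ^ 1 * (1 - p) ^ 4 + 420073870080 * (p - (3 / 4)) ^ 2 * (1 - p) ^ 3 + 595568099584 * (p - (3 / 4)) ^ 3 * (1 - p) ^ 2 + 408072269824 * (p - (3 / 4)) ^ 4 * (1 - p) ^ 1 + 109134299136 * (p - (3 / 4)) ^ 5 * (1 - p) ^ 0) +
      (r - (1 / 4)) ^ 6 * ((1 / 2) - r) ^ 0 * (2009484800 * (p - (3 / 4)) ^ 0 * (1 - p) ^ 5 + 18776800768 * (p - (3 / 4)) ^ 1 * (1 - p) ^ 4 + 59981289728 * (p - (3 / 4)) ^ 2 * (1 - p) ^ 3 + 88525912832 * (p - (3 / 4)) ^ 3 * (1 - p) ^ 2 + 62275031040 * (p - (3 / 4)) ^ 4 * (1 - p) ^ 1 + 16964370432 * (p - (3 / 4)) ^ 5 * (1 - p) ^ 0) := by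
    unfold FF BB Qd
    ring
  rw [← e] at k2
  exact (mul_nonneg_iff_of_pos_left (by norm_num)).1 k2

lemma bx9_NUM (r p : ℝ) (h0 : (1 / 2) ≤ r) (h1 : r ≤ 1) (h2 : 0 ≤ p) (h3 : p ≤ (1 / 2)) :
    0 ≤ FF (7 / 60) (2 / 5) r p - 0 * (1 + r ^ 2 - 2 * p ^ 2) := by
  have key : ∀ a b c d : ℝ, 0 ≤ a → 0 ≤ b → 0 ≤ c → 0 ≤ d → 0 ≤
      a ^ 0 * b ^ 6 * (1494204 * c ^ 0 * d ^ 5 + 6831720 * c ^ 1 * d ^ 4 + 28783223 * c ^ 2 * d ^ 3 + 47312141 * c ^ 3 * d ^ 2 + 26437481 * c ^ 4 * d ^ 1 + 2930615 * c ^ 5 * d ^ 0) +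
      a ^ 1 * b ^ 5 * (11160080 * c ^ 0 * d ^ 5 + 54159456 * c ^ 1 * d ^ 4 + 221542244 * c ^ 2 * d ^ 3 + 373335308 * c ^ 3 * d ^ 2 + 232723356 * c ^ 4 * d ^ 1 + 40088324 * c ^ 5 * d ^ 0) +
      a ^ 2 * b ^ 4 * (26833392 * c ^ 0 * d ^ 5 + 128997792 * c ^ 1 * d ^ 4 + 577661340 * c ^ 2 * d ^ 3 + 1032492468 * c ^ 3 * d ^ 2 + 688430244 * c ^ 4 * d ^ 1 + 136828236 * c ^ 5 * d ^ 0) +
      a ^ 3 * b ^ 3 * (30937216 * c ^ 0 * d ^ 5 + 142953216 * c ^ 1 * d ^ 4 + 746702624 * c ^ 2 * d ^ 3 + 1431975776 * c ^ 3 * d ^ 2 + 1007110624 * c ^ 4 * d ^ 1 + 217012832 * c ^ 5 * d ^ 0) +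
      a ^ 4 * b ^ 2 * (21430208 * c ^ 0 * d ^ 5 + 96578688 * c ^ 1 * d ^ 4 + 563958128 * c ^ 2 * d ^ 3 + 1131865616 * c ^ 3 * d ^ 2 + 825625680 * c ^ 4 * d ^ 1 + 187963232 * c ^ 5 * d ^ 0) +
      a ^ 5 * b ^ 1 * (10007808 * c ^ 0 * d ^ 5 + 47245824 * c ^ 1 * d ^ 4 + 255756096 * c ^ 2 * d ^ 3 + 505935936 * c ^ 3 * d ^ 2 + 373389888 * c ^ 4 * d ^ 1 + 88129440 * c ^ 5 * d ^ 0) +
      a ^ 6 * b ^ 0 * (2257408 * c ^ 0 * d ^ 5 + 11410944 * c ^ 1 * d ^ 4 + 52317312 * c ^ 2 * d ^ 3 + 98071104 * c ^ 3 * d ^ 2 + 71854016 * c ^ 4 * d ^ 1 + 17306256 * c ^ 5 * d ^ 0) := by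
    intro a b c d ha hb hc hd
    positivity
  have k2 := key (r - (1 / 2)) (1 - r) (p - 0) ((1 / 2) - p) (by linarith) (by linarith) (by linarith) (by linarith)
  have e : 11250 * (FF (7 / 60) (2 / 5) r p - 0 * (1 + r ^ 2 - 2 * p ^ 2)) =
      (r - (1 / 2)) ^ 0 * (1 - r) ^ 6 * (1494204 * (p - 0) ^ 0 * ((1 / 2) - p) ^ 5 + 6831720 * (p - 0) ^ 1 * ((1 / 2) - p) ^ 4 + 28783223 * (p - 0) ^ 2 * ((1 / 2) - p) ^ 3 + 47312141 * (p - 0) ^ 3 * ((1 / 2) - p) ^ 2 + 26437481 * (p - 0) ^ 4 * ((1 / 2) - p) ^ 1 + 2930615 * (p - 0) ^ 5 * ((1 / 2) - p) ^ 0) +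
      (r - (1 / 2)) ^ 1 * (1 - r) ^ 5 * (11160080 * (p - 0) ^ 0 * ((1 / 2) - p) ^ 5 + 54159456 * (p - 0) ^ 1 * ((1 / 2) - p) ^ 4 + 221542244 * (p - 0) ^ 2 * ((1 / 2) - p) ^ 3 + 373335308 * (p - 0) ^ 3 * ((1 / 2) - p) ^ 2 + 232723356 * (p - 0) ^ 4 * ((1 / 2) - p) ^ 1 + 40088324 * (p - 0) ^ 5 * ((1 / 2) - p) ^ 0) +
      (r - (1 / 2)) ^ 2 * (1 - r) ^ 4 * (26833392 * (p - 0) ^ 0 * ((1 / 2) - p) ^ 5 + 128997792 * (p - 0) ^ 1 * ((1 / 2) - p) ^ 4 + 577661340 * (p - 0) ^ 2 * ((1 / 2) - p) ^ 3 + 1032492468 * (p - 0) ^ 3 * ((1 / 2) - p) ^ 2 + 688430244 * (p - 0) ^ 4 * ((1 / 2) - p) ^ 1 + 136828236 * (p - 0) ^ 5 * ((1 / 2) - p) ^ 0) +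
      (r - (1 / 2)) ^ 3 * (1 - r) ^ 3 * (30937216 * (p - 0) ^ 0 * ((1 / 2) - p) ^ 5 + 142953216 * (p - 0) ^ 1 * ((1 / 2) - p) ^ 4 + 746702624 * (p - 0) ^ 2 * ((1 / 2) - p) ^ 3 + 1431975776 * (p - 0) ^ 3 * ((1 / 2) - p) ^ 2 + 1007110624 * (p - 0) ^ 4 * ((1 / 2) - p) ^ 1 + 217012832 * (p - 0) ^ 5 * ((1 / 2) - p) ^ 0) +
      (r - (1 / 2)) ^ 4 * (1 - r) ^ 2 * (21430208 * (p - 0) ^ 0 * ((1 / 2) - p) ^ 5 + 96578688 * (p - 0) ^ 1 * ((1 / 2) - p) ^ 4 + 563958128 * (p - 0) ^ 2 * ((1 / 2) - p) ^ 3 + 1131865616 * (p - 0) ^ 3 * ((1 / 2) - p) ^ 2 + 825625680 * (p - 0) ^ 4 * ((1 / 2) - p) ^ 1 + 187963232 * (p - 0) ^ 5 * ((1 / 2) - p) ^ 0) +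
      (r - (1 / 2)) ^ 5 * (1 - r) ^ 1 * (10007808 * (p - 0) ^ 0 * ((1 / 2) - p) ^ 5 + 47245824 * (p - 0) ^ 1 * ((1 / 2) - p) ^ 4 + 255756096 * (p - 0) ^ 2 * ((1 / 2) - p) ^ 3 + 505935936 * (p - 0) ^ 3 * ((1 / 2) - p) ^ 2 + 373389888 * (p - 0) ^ 4 * ((1 / 2) - p) ^ 1 + 88129440 * (p - 0) ^ 5 * ((1 / 2) - p) ^ 0) +
      (r - (1 / 2)) ^ 6 * (1 - r) ^ 0 * (2257408 * (p - 0) ^ 0 * ((1 / 2) - p) ^ 5 + 11410944 * (p - 0) ^ 1 * ((1 / 2) - p) ^ 4 + 52317312 * (p - 0) ^ 2 * ((1 / 2) - p) ^ 3 + 98071104 * (p - 0) ^ 3 * ((1 / 2) - p) ^ 2 + 71854016 * (p - 0) ^ 4 * ((1 / 2) - p) ^ 1 + 17306256 * (p - 0) ^ 5 * ((1 / 2) - p) ^ 0) := by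
    unfold FF BB Qd
    ring
  rw [← e] at k2
  exact (mul_nonneg_iff_of_pos_left (by norm_num)).1 k2

end Pool.Agent.Helper68.SR
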