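import Mathlib
import Pool.Agent.Helper21.SR.St
import Pool.Agent.Helper68.SR.NumA
import Pool.Agent.Helper68.SR.NumB
import Pool.Agent.Helper68.SR.NumC

/-! # Project SR: NUM, the explicit two variable inequality -/

set_option autoImplicit false

namespace Pool.Agent.Helper68.SR

open Pool.Agent.Helper21.SR

/-- the 29 boxes cover the unit square -/
lemma cover_NUM (p r : ℝ) (hp0 : 0 ≤ p) (hp1 : p ≤ 1) (hr0 : 0 ≤ r) (hr1 : r ≤ 1) :
    ∃ l m s : ℝ, 0 ≤ l ∧ l ≤ 4 / 7 ∧ 0 ≤ m ∧ 0 ≤ s ∧
      0 ≤ FF l m r p - s * (1 + r ^ 2 - 2 * p ^ 2) := by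
  rcases le_total r (1 / 2) with h | h
  · rcases le_total p (1 / 2) with h | h
    · rcases le_total r (1 / 4) with h | h
      · rcases le_total p (1 / 4) with h | h
        · exact ⟨0, 1 / 20, 0, by norm_num, by norm_num, by norm_num, by norm_num, bx0_NUM r p (by linarith) (by linarith) (by linarith) (by linarith)⟩
        · exact ⟨1 / 15, 1 / 10, 0, by norm_num, by norm_num, by norm_num, by norm_num, bx1_NUM r p (by linarith) (by linarith) (by linarith) (by linarith)⟩
      · rcases le_total p (1 / 4) with h | h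
        · exact ⟨1 / 15, 3 / 10, 0, by norm_num, by norm_num, by norm_num, by norm_num, bx2_NUM r p (by linarith) (by linarith) (by linarith) (by linarith)⟩
        · rcases le_total r (3 / 8) with h | h
          · exact ⟨1 / 12, 1 / 5, 0, by norm_num, by norm_num, by norm_num, by norm_num, bx3_NUM r p (by linarith) (by linarith) (by linarith) (by linarith)⟩
          · exact ⟨1 / 10, 1 / 4, 0, by norm_num, by norm_num, by norm_num, by norm_num, bx4_NUM r p (by linarith) (by linarith) (by linarith) (by linarith)⟩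
    · rcases le_total r (1 / 4) with h | h
      · exact ⟨3 / 20, 0, 0, by norm_num, by norm_num, by norm_num, by norm_num, bx5_NUM r p (by linarith) (by linarith) (by linarith) (by linarith)⟩
      · rcases le_total p (3 / 4) with h | h
        · rcases le_total r (3 / 8) with h | h
          · exact ⟨7 / 60, 1 / 10, 0, by norm_num, by norm_num, by norm_num, by norm_num, bx6_NUM r p (by linarith) (by linarith) (by linarith) (by linarith)⟩
          · exact ⟨7 / 60, 1 / 5, 0, by norm_num, by norm_num, by norm_num, by norm_num, bx7_NUM r p (by linarith) (by linarith) (by linarith) (by linarith)⟩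
        · exact ⟨3 / 16, 0, 0, by norm_num, by norm_num, by norm_num, by norm_num, bx8_NUM r p (by linarith) (by linarith) (by linarith) (by linarith)⟩
  · rcases le_total p (1 / 2) with h | h
    · exact ⟨7 / 60, 2 / 5, 0, by norm_num, by norm_num, by norm_num, by norm_num, bx9_NUM r p (by linarith) (by linarith) (by linarith) (by linarith)⟩
    · rcases le_total r (3 / 4) with h | h
      · rcases le_total p (3 / 4) with h | h
        · rcases le_total r (5 / 8) with h | h
          · exact ⟨3 / 20, 1 / 4, 0, by norm_num, by norm_num, by norm_num, by norm_num, bx10_NUM r p (by linarith) (by linarith) (by linarith) (by linarith)⟩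
          · exact ⟨3 / 20, 7 / 20, 0, by norm_num, by norm_num, by norm_num, by norm_num, bx11_NUM r p (by linarith) (by linarith) (by linarith) (by linarith)⟩
        · rcases le_total r (5 / 8) with h | h
          · exact ⟨3 / 20, 1 / 4, 11 / 50, by norm_num, by norm_num, by norm_num, by norm_num, bx12_NUM r p (by linarith) (by linarith) (by linarith) (by linarith)⟩
          · exact ⟨3 / 20, 1 / 4, 0, by norm_num, by norm_num, by norm_num, by norm_num, bx13_NUM r p (by linarith) (by linarith) (by linarith) (by linarith)⟩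
      · rcases le_total p (3 / 4) with h | h
        · exact ⟨1 / 6, 9 / 20, 0, by norm_num, by norm_num, by norm_num, by norm_num, bx14_NUM r p (by linarith) (by linarith) (by linarith) (by linarith)⟩
        · rcases le_total r (7 / 8) with h | h
          · rcases le_total p (7 / 8) with h | h
            · rcases le_total r (13 / 16) with h | h
              · exact ⟨1 / 6, 3 / 10, 0, by norm_num, by norm_num, by norm_num, by norm_num, bx15_NUM r p (by linarith) (by linarith) (by linarith) (by linarith)⟩
              · exact ⟨1 / 6, 9 / 20, 0, by norm_num, by norm_num, by norm_num, by norm_num, bx16_NUM r p (by linarith) (by linarith) (by linarith) (by linarith)⟩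
            · rcases le_total r (13 / 16) with h | h
              · exact ⟨1 / 6, 3 / 10, 11 / 20, by norm_num, by norm_num, by norm_num, by norm_num, bx17_NUM r p (by linarith) (by linarith) (by linarith) (by linarith)⟩
              · exact ⟨1 / 6, 3 / 10, 9 / 20, by norm_num, by norm_num, by norm_num, by norm_num, bx18_NUM r p (by linarith) (by linarith) (by linarith) (by linarith)⟩
          · rcases le_total p (7 / 8) with h | h
            · exact ⟨1 / 6, 9 / 20, 0, by norm_num, by norm_num, by norm_num, by norm_num, bx19_NUM r p (by linarith) (by linarith) (by linarith) (by linarith)⟩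
            · rcases le_total r (15 / 16) with h | h
              · rcases le_total p (15 / 16) with h | h
                · exact ⟨11 / 60, 7 / 20, 0, by norm_num, by norm_num, by norm_num, by norm_num, bx20_NUM r p (by linarith) (by linarith) (by linarith) (by linarith)⟩
                · rcases le_total r (29 / 32) with h | h
                  · exact ⟨3 / 16, 1 / 4, 0, by norm_num, by norm_num, by norm_num, by norm_num, bx21_NUM r p (by linarith) (by linarith) (by linarith) (by linarith)⟩
                  · exact ⟨11 / 60, 3 / 10, 2 / 5, by norm_num, by norm_num, by norm_num, by norm_num, bx22_NUM r p (by linarith) (by linarith) (by linarith) (by linarith)⟩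
              · rcases le_total p (15 / 16) with h | h
                · exact ⟨3 / 16, 1 / 2, 0, by norm_num, by norm_num, by norm_num, by norm_num, bx23_NUM r p (by linarith) (by linarith) (by linarith) (by linarith)⟩
                · rcases le_total r (31 / 32) with h | h
                  · rcases le_total p (31 / 32) with h | h
                    · exact ⟨11 / 60, 2 / 5, 0, by norm_num, by norm_num, by norm_num, by norm_num, bx24_NUM r p (by linarith) (by linarith) (by linarith) (by linarith)⟩
                    · exact ⟨11 / 60, 2 / 5, 13 / 10, by norm_num, by norm_num, by norm_num, by norm_num, bx25_NUM r p (by linarith) (by linarith) (by linarith) (by linarith)⟩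
                  · rcases le_total p (31 / 32) with h | h
                    · exact ⟨3 / 16, 1 / 2, 0, by norm_num, by norm_num, by norm_num, by norm_num, bx26_NUM r p (by linarith) (by linarith) (by linarith) (by linarith)⟩
                    · rcases le_total r (63 / 64) with h | h
                      · exact ⟨11 / 60, 1 / 2, 8 / 5, by norm_num, by norm_num, by norm_num, by norm_num, bx27_NUM r p (by linarith) (by linarith) (by linarith) (by linarith)⟩
                      · exact ⟨11 / 60, 1 / 2, 31 / 20, by norm_num, by norm_num, by norm_num, by norm_num, bx28_NUM r p (by linarith) (by linarith) (by linarith) (by linarith)⟩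


lemma sq_div_NUM (x y l : ℝ) (hy : 0 ≤ y) (hxy : y = 0 → x = 0) :
    2 * l * x - l ^ 2 * y ≤ x ^ 2 / y := by
  rcases hy.eq_or_lt with h | h
  · have hx := hxy h.symm
    rw [← h, hx]
    simp
  · rw [le_div_iff₀ h]
    nlinarith [sq_nonneg (x - l * y)]

lemma gge_NUM (p r m : ℝ) (hm : 0 ≤ m) (hD : 0 ≤ 1 + r ^ 2 - 2 * p ^ 2) :
    p ^ 2 - r ^ 2 + 4 * m * (r - p ^ 2) - 2 * m ^ 2 * (1 + r ^ 2 - 2 * p ^ 2) ≤
      Psi r (p ^ 2) - r ^ 2 := by
  unfold Psi
  split_ifs with h
  · have h1 := sq_div_NUM (r - p ^ 2) (1 + r ^ 2 - 2 * p ^ 2) m hD (by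
      intro h0
      nlinarith [sq_nonneg (1 - r)])
    have h2 : 2 * (r - p ^ 2) ^ 2 / (1 + r ^ 2 - 2 * p ^ 2) =
        2 * ((r - p ^ 2) ^ 2 / (1 + r ^ 2 - 2 * p ^ 2)) := by ring
    rw [h2]
    nlinarith
  · push Not at h
    have h1 : 0 ≤ m * (p ^ 2 - r) := mul_nonneg hm (by linarith)
    have h2 : 0 ≤ m ^ 2 * (1 + r ^ 2 - 2 * p ^ 2) := mul_nonneg (sq_nonneg m) hD
    nlinarith

lemma g0_NUM (p r : ℝ) (hr0 : 0 ≤ r) (hr1 : r ≤ 1)
    (hD : 0 ≤ 1 + r ^ 2 - 2 * p ^ 2) : 0 ≤ Psi r (p ^ 2) - r ^ 2 := by
  unfold Psi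
  split_ifs with h
  · rcases hD.eq_or_lt with h0 | h0
    · have hr : r = 1 := by nlinarith [sq_nonneg (1 - r)]
      have hp : p ^ 2 = 1 := by rw [hr] at h0; linarith
      rw [hr, hp]
      norm_num
    · have hN : 0 ≤ p ^ 2 * (1 - 3 * r) + r ^ 2 + r ^ 3 := by
        rcases le_total (3 * r) 1 with h3 | h3
        · have : 0 ≤ p ^ 2 * (1 - 3 * r) := mul_nonneg (sq_nonneg p) (by linarith)
          positivity
        · have h4 : 0 ≤ (r - p ^ 2) * (3 * r - 1) := mul_nonneg (by linarith) (by linarith)
          have h5 : 0 ≤ r * (1 - r) ^ 2 := mul_nonneg hr0 (sq_nonneg _)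
          nlinarith
      have e : p ^ 2 + 2 * (r - p ^ 2) ^ 2 / (1 + r ^ 2 - 2 * p ^ 2) - r ^ 2 =
          (1 - r) * (p ^ 2 * (1 - 3 * r) + r ^ 2 + r ^ 3) / (1 + r ^ 2 - 2 * p ^ 2) := by
        have hne := h0.ne'
        rw [eq_div_iff hne, sub_mul, add_mul, div_mul_cancel₀ _ hne]
        ring
      rw [e]
      exact div_nonneg (mul_nonneg (by linarith) hN) h0.le
  · push Not at h
    nlinarith

/-- `StNum` -/
theorem hNum : StNum := by
  intro p r hp0 hp1 hr0 hr1 hpr
  have hD : 0 ≤ 1 + r ^ 2 - 2 * p ^ 2 := by linarith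
  have hg0 := g0_NUM p r hr0 hr1 hD
  refine ⟨hg0, ?_⟩
  obtain ⟨l, m, s, hl0, hl1, hm, hs, hF⟩ := cover_NUM p r hp0 hp1 hr0 hr1
  have hF' : 0 ≤ FF l m r p := by
    have := mul_nonneg hs hD
    linarith
  have hgm := gge_NUM p r m hm hD
  set g := Psi r (p ^ 2) - r ^ 2 with hg
  have hr2 : r ^ 2 ≤ 1 := by nlinarith
  set y := (1 - r ^ 2) + 7 * g / 2 with hy
  have hy0 : 0 ≤ y := by rw [hy]; linarith
  have hq := sq_div_NUM g y l hy0 (by
    intro h0
    rw [hy] at h0
    linarith)
  have hb : 1 - (r ^ 2 + 8 * g ^ 2 / y) ≤ BB l m r p := by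
    have e : 8 * g ^ 2 / y = 8 * (g ^ 2 / y) := by ring
    have hc : 0 ≤ 16 * l - 28 * l ^ 2 := by nlinarith
    have h1 := mul_le_mul_of_nonneg_left hgm hc
    unfold BB
    rw [e, hy] at *
    nlinarith
  have hp2 : 0 < (1 + p) ^ 2 := by positivity
  have ha : (1 + p) ^ 2 * (2 * p / (1 + p)) ^ 2 = 4 * p ^ 2 := by
    have : (1 + p) ≠ 0 := by linarith
    field_simp
    ring
  set a := (2 * p / (1 + p)) ^ 2 with haa
  set b := r ^ 2 + 8 * g ^ 2 / y with hbb
  have hkey : (1 + p) ^ 2 * (3 - a - b - a * b + Qc (r ^ 2) - 2 * Qc p) ≤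
      (1 + p) ^ 2 * (2 * (999 / 1000) * (1 - r ^ 2)) := by
    have h1 : ((1 + p) ^ 2 + 4 * p ^ 2) * (1 - b) ≤ ((1 + p) ^ 2 + 4 * p ^ 2) * BB l m r p :=
      mul_le_mul_of_nonneg_left hb (by positivity)
    have h2 : (1 + p) ^ 2 * (3 - a - b - a * b + Qc (r ^ 2) - 2 * Qc p) =
        2 * ((1 - p) * (1 + 3 * p)) + ((1 + p) ^ 2 + 4 * p ^ 2) * (1 - b) +
          (1 + p) ^ 2 * (Qc (r ^ 2) - 2 * Qc p) := by
      linear_combination (-(1 + b)) * ha
    rw [h2]
    have h3 : Qd = Qc := rfl
    unfold FF at hF'
    rw [h3] at hF'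
    nlinarith
  exact le_of_mul_le_mul_left hkey hp2

end Pool.Agent.Helper68.SR
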